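import Pool.Agent.TH37.HG.Stmts

set_option autoImplicit false

namespace Pool.Agent.TH37.HG

open Pool.Agent.Helper294.HallC (PC FGM Stb Noe)
open Pool.Agent.H53R2
open scoped commutatorElement

theorem vnil_quot (G : Type) [Group G] (G₁ : Subgroup G) [h1 : G₁.Normal] (h2 : G₁.FiniteIndex)
    (m : ℕ) : VNil (G ⧸ Lw G₁ m G₁) := by
  have hs : Function.Surjective (QuotientGroup.mk' (Lw G₁ m G₁)) :=
    QuotientGroup.mk'_surjective _
  refine ⟨G₁.map (QuotientGroup.mk' (Lw G₁ m G₁)), h1.map _ hs, ?_, m, ?_⟩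
  · constructor
    have := Subgroup.index_map_dvd G₁ hs
    exact fun h0 => h2.index_ne_zero (Nat.eq_zero_of_zero_dvd (h0 ▸ this))
  · rw [← map_Lw, eq_bot_iff]
    rintro _ ⟨x, hx, rfl⟩
    exact (QuotientGroup.eq_one_iff x).2 hx

theorem vnil_fin (G : Type) [Group G] (G₁ : Subgroup G) [G₁.Normal] [G₁.FiniteIndex] :
    VNil (G ⧸ G₁) := by
  refine ⟨⊥, inferInstance, ?_, 0, rfl⟩
  constructor
  rw [Subgroup.index_bot]
  exact Nat.card_pos.ne'

/-- monolithic groups are finite -/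
theorem mono_grp_finite (hN : NfinStmt) (hNf : NilfStmt) (u : UI) (G : Type) [Group G]
    [Group.FG G] (hG : u.Grp G) (d : ℕ) (hd : derivedSeries G d = ⊥) (r : G) (hr : MonoG r) :
    Finite G := by
  obtain ⟨⟨G₁, h1, h2, m, c, hc⟩, hmax⟩ := U_main u d G hG hd
  have hsol : Group.IsSolvable G := ⟨d, hd⟩
  have hf1 : Finite ↥(Lw G₁ m G₁) := hN u G hG hmax r hr (Lw G₁ m G₁) c hc (vnil_quot G G₁ h2 m)
  obtain ⟨G₂, g1, g2, m', hm'⟩ := hNf G (Lw G₁ m G₁) (vnil_quot G G₁ h2 m)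
  have hf2 : Finite ↥G₂ := hN u G hG hmax r hr G₂ m' hm' (vnil_fin G G₂)
  have : Finite (G ⧸ G₂) := inferInstance
  exact Finite.of_equiv _ (Subgroup.groupEquivQuotientProdSubgroup (s := G₂)).symm

/-- finitely generated soluble groups with a universal identity are residually finite -/
theorem rf_of_UI (hN : NfinStmt) (hNf : NilfStmt) (u : UI) (G : Type) [Group G]
    [Group.FG G] (hG : u.Grp G) (d : ℕ) (hd : derivedSeries G d = ⊥) : ResFin G := by
  intro g hg
  obtain ⟨_, hmax⟩ := U_main u d G hG hd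
  obtain ⟨K, ⟨hK, hgK⟩, hKmax⟩ := hmax.exists_max (fun N => N.Normal ∧ g ∉ N) (fun N h => h.1)
    ⟨⊥, inferInstance, by rwa [Subgroup.mem_bot]⟩
  have hs : Function.Surjective (QuotientGroup.mk' K) := QuotientGroup.mk'_surjective K
  have hr : MonoG (QuotientGroup.mk' K g) := by
    refine ⟨fun h => hgK ((QuotientGroup.eq_one_iff g).1 h), fun N hN hne => ?_⟩
    by_contra hcon
    have hle : K ≤ N.comap (QuotientGroup.mk' K) := by
      intro x hx
      rw [Subgroup.mem_comap]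
      have : QuotientGroup.mk' K x = 1 := (QuotientGroup.eq_one_iff x).2 hx
      rw [this]; exact N.one_mem
    have h1 := hKmax (N.comap (QuotientGroup.mk' K)) ⟨hN.comap _, fun h => hcon h⟩ hle
    apply hne
    rw [eq_bot_iff]
    intro x hx
    obtain ⟨y, rfl⟩ := hs x
    have h2 : y ∈ N.comap (QuotientGroup.mk' K) := hx
    rw [h1] at h2
    exact (QuotientGroup.eq_one_iff y).2 h2
  have hd' : derivedSeries (G ⧸ K) d = ⊥ := by
    have h1 := map_derivedSeries_eq (f := QuotientGroup.mk' K) hs d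
    rw [← h1, hd, Subgroup.map_bot]
  have hfg : Group.FG (G ⧸ K) := QuotientGroup.fg K
  have hfin : Finite (G ⧸ K) := mono_grp_finite hN hNf u (G ⧸ K) (hG.of_surjective _ hs) d hd' _ hr
  exact ⟨K, hK, Subgroup.finiteIndex_of_finite_quotient, hgK⟩

/-- the configuration-free form of the universal identity -/
theorem UI_of_noconf (W : Set (FreeGroup ℕ))
    (h : ∀ (G : Type) [Group G], InVar W G → ∀ b m t : G,
      (∀ i : ℤ, i ≠ 0 → ⁅b, t ^ i * m * t ^ (-i)⁆ = 1) → ⁅b, m⁆ = 1) :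
    ∃ u : UI, ∀ (G : Type) [Group G], InVar W G → u.Grp G := by
  apply M_extract
  set N := Subgroup.normalClosure {x : RF W 3 | ∃ j : ℤ, j ≠ 0 ∧
        x = ⁅(RF.gen W 0 : RF W 3), RF.gen W 2 ^ j * RF.gen W 1 * RF.gen W 2 ^ (-j)⁆} with hN
  have hNn : N.Normal := Subgroup.normalClosure_normal
  have h1 := h (RF W 3 ⧸ N) ((RF_inVar W 3).quot N) (QuotientGroup.mk' N (RF.gen W 0))
    (QuotientGroup.mk' N (RF.gen W 1)) (QuotientGroup.mk' N (RF.gen W 2)) (by
      intro i hi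
      rw [← map_zpow, ← map_zpow, ← map_mul, ← map_mul, ← map_commutatorElement]
      refine (QuotientGroup.eq_one_iff _).2 ?_
      exact Subgroup.subset_normalClosure ⟨i, hi, rfl⟩)
  rw [← map_commutatorElement] at h1
  exact (QuotientGroup.eq_one_iff _).1 h1

theorem noconf_of_UI (u : UI) (G : Type) [Group G] (hG : u.Grp G) (b m t : G)
    (h : ∀ i : ℤ, i ≠ 0 → ⁅b, t ^ i * m * t ^ (-i)⁆ = 1) : ⁅b, m⁆ = 1 := by
  rw [hG b m t]
  have : (fun k : Fin u.n => FreeGroup.lift ![b, m, t] (u.w k) *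
      ⁅b, t ^ (u.i k) * m * t ^ (-(u.i k))⁆ ^ (u.e k) *
      (FreeGroup.lift ![b, m, t] (u.w k))⁻¹) = fun _ => 1 := by
    funext k
    rw [h _ (u.hi k), one_zpow, mul_one, mul_inv_cancel]
  rw [this]
  simp

end Pool.Agent.TH37.HG
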