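import Pool.Agent.TH37.HG.Asm
import Pool.Agent.TH959.HG_NOE
import Pool.Agent.TH914.HG_UNION
import Pool.Agent.TH267.HG_GEN
import Pool.Agent.TH263.HG_SIMP
import Pool.Agent.TH263.HG_SIMZ
import Pool.Agent.TH263.HG_MAL
import Pool.Agent.TH11.HG_MC
import Pool.Agent.TH576.HG_MFIN
import Pool.Agent.TH576.HG_ZC
import Pool.Agent.TH576.HG_NFIN
import Pool.Agent.TH365.HG_MFINV
import Pool.Agent.TH365.HG_PERG
import Pool.Agent.TH298.HG_NILF
import Pool.Agent.TH370.HG_PER
import Pool.Agent.TH370.HG_DFIN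

set_option autoImplicit false

/-!
# Assembly of the first part of the project HG (MP_364ede_al)
-/

namespace Pool.Agent.TH37.HG

open Pool.Agent.H53R2
open scoped commutatorElement

theorem fgStmt : FgStmt := TH914.HG.fgs TH914.HG.trans TH914.HG.mul

theorem genStmt : GenStmt :=
  TH267.HG.gen TH959.HGNoe.noe TH914.HG.union TH914.HG.trans TH914.HG.mul TH914.HG.iso
    TH914.HG.map' fgStmt

theorem mcStmt : McStmt :=
  TH11.HGMC.mc (TH263.HGSIMP.simp' genStmt TH914.HG.div')
    (TH263.HGSIMZ.simz genStmt TH914.HG.div') TH914.HG.fit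

/-- P. Hall: monolithic finitely generated modules over finitely generated nilpotent groups are
finite -/
theorem mfinStmt : MfinStmt := TH576.HG.mfin mcStmt

theorem mfinVStmt : MfinVStmt := TH365.HG.mfinv mfinStmt

theorem nilfStmt : NilfStmt := TH298.HGN.nilf

theorem nfinStmt : NfinStmt :=
  TH576.HG.nfin nilfStmt (TH576.HG.zc mfinVStmt) (TH365.HG.perg TH370.HGPer.per)
    TH370.HGDfin.dfin

theorem malStmt : MalStmt := TH263.HGMAL.mal

/-- finitely generated soluble groups with a universal identity are residually finite -/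
theorem rf_UI (u : UI) (G : Type) [Group G] [Group.FG G] (hG : u.Grp G) (d : ℕ)
    (hd : derivedSeries G d = ⊥) : ResFin G :=
  rf_of_UI nfinStmt nilfStmt u G hG d hd

/-- the main theorem, first part -/
theorem main_tfae (W : Set (FreeGroup ℕ)) (d : ℕ)
    (hd : ∀ (G : Type) [Group G], InVar W G → derivedSeries G d = ⊥) : List.TFAE [
    ∀ (G : Type) [Group G], Group.FG G → InVar W G → ResFin G,
    ∃ u : UI, ∀ (G : Type) [Group G], InVar W G → u.Grp G,
    ∀ (G : Type) [Group G], InVar W G → ∀ b m t : G,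
      (∀ i : ℤ, i ≠ 0 → ⁅b, t ^ i * m * t ^ (-i)⁆ = 1) → ⁅b, m⁆ = 1,
    ∀ (G : Type) [Group G], Group.FG G → InVar W G → MaxN G,
    ∀ (G : Type) [Group G], Group.FG G → InVar W G →
      ∀ φ : G →* G, Function.Surjective φ → Function.Injective φ,
    SmallVar W] := by
  tfae_have 1 → 5 := by
    intro h G _ hfg hG φ hφ
    exact malStmt G (h G hfg hG) φ hφ
  tfae_have 5 → 2 := by
    intro h
    apply exists_UI W
    intro N _ φ hφ
    have hfg : Group.FG (RF W 3) := QuotientGroup.fg _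
    exact h (RF W 3 ⧸ N) (QuotientGroup.fg N) ((RF_inVar W 3).quot N) φ hφ
  tfae_have 2 → 1 := by
    rintro ⟨u, hu⟩ G _ hfg hG
    exact rf_UI u G (hu G hG) d (hd G hG)
  tfae_have 2 → 3 := by
    rintro ⟨u, hu⟩ G _ hG b m t h
    exact noconf_of_UI u G (hu G hG) b m t h
  tfae_have 3 → 2 := fun h => UI_of_noconf W h
  tfae_have 2 → 4 := by
    rintro ⟨u, hu⟩ G _ hfg hG
    exact (U_main u d G (hu G hG) (hd G hG)).2
  tfae_have 4 → 5 := by
    intro h G _ hfg hG φ hφ
    exact hopfian_of_maxN (h G hfg hG) φ hφ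
  tfae_have 4 → 6 := by
    intro h ι G _ hfg hG hne
    have hc : Countable ι := countable_of_maxN W (fun n => h (RF W n) (QuotientGroup.fg _)
      (RF_inVar W n)) ι G hfg hG hne
    exact lt_of_le_of_lt (Cardinal.mk_le_aleph0_iff.mpr hc) Cardinal.aleph0_lt_continuum
  tfae_have 6 → 2 := fun h => exists_UI_small h
  tfae_finish

end Pool.Agent.TH37.HG
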