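import Pool.Agent.TH37.HG.Stmts2
import Pool.Agent.H53R2.Small
import Pool.Agent.H53R2.UB2

set_option autoImplicit false

/-!
# Assembly of the second part of the project HG (MP_364ede_al)
-/

namespace Pool.Agent.TH37.HG

open Pool.Agent.H53R2
open scoped commutatorElement

/-- the variety contains none of the forbidden groups -/
def Forb (W : Set (FreeGroup ℕ)) : Prop :=
  (∀ p : ℕ, p.Prime → ¬ InVar W (HGrp p)) ∧
  ∀ p q : ℕ, p.Prime → q.Prime → p ≠ q → ¬ InVar W (WGrp p q)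

theorem maxN_of_no (hc : UicStmt) (hm : UimStmt) (hs : StepStmt) (hb : B2Stmt)
    (W : Set (FreeGroup ℕ)) (h1 : NoC W) (h2 : NoM W) (d : ℕ) :
    ∀ (G : Type) [Group G] [Group.FG G], InVar W G → derivedSeries G d = ⊥ → VN G ∧ MaxN G := by
  obtain ⟨u, hu⟩ := hc W h1
  obtain ⟨v, hv⟩ := hm W h2
  induction d with
  | zero =>
    intro G _ _ hG h
    have hvn : VN G := by
      refine ⟨⊤, inferInstance, inferInstance, 0, 0, ?_⟩
      rw [Lw_zero, Lw_zero]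
      simpa using h
    exact ⟨hvn, hb W u hu G hG hvn⟩
  | succ d ih =>
    intro G _ _ hG h
    let D : Subgroup G := derivedSeries G d
    have : D.Normal := derivedSeries_normal G d
    have hD : ⁅D, D⁆ = ⊥ := h
    have hq : derivedSeries (G ⧸ D) d = ⊥ := by
      have h1 := map_derivedSeries_eq (f := QuotientGroup.mk' D) (QuotientGroup.mk'_surjective D) d
      rw [← h1, eq_bot_iff]
      rintro _ ⟨x, hx, rfl⟩
      exact (QuotientGroup.eq_one_iff x).2 hx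
    obtain ⟨h1, h2⟩ := ih (G ⧸ D) (hG.quot D) hq
    have hvn : VN G := hs W u v hu hv G hG D hD h2 h1
    exact ⟨hvn, hb W u hu G hG hvn⟩

theorem noC_of_forb (h1 : X1aStmt) (h2 : X1bStmt) (h3 : X2Stmt) (W : Set (FreeGroup ℕ))
    (hW : ∀ p : ℕ, p.Prime → ¬ InVar W (HGrp p)) : NoC W := by
  intro G _ hG b m t hcfg hcen
  by_contra hne
  obtain ⟨p, H, _, b', m', t', hp, hH, c1, c2, c3, c4, c5⟩ := h1 W G hG b m t hcfg hcen hne
  obtain ⟨K, _, b₂, m₂, t₂, hK, g1, g2⟩ := h2 W H hH p b' m' t' c1 c2 c3 c4 c5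
  exact hW p hp (h3 W K hK p hp b₂ m₂ t₂ g1 g2)

theorem noM_of_forb (h1 : X4Stmt) (h2 : X5Stmt) (h3 : X6Stmt) (W : Set (FreeGroup ℕ))
    (hC : NoC W) (hW : ∀ p q : ℕ, p.Prime → q.Prime → p ≠ q → ¬ InVar W (WGrp p q)) :
    NoM W := by
  intro G _ hG D hD hDD b hb m t hmt hcfg
  by_contra hne
  obtain ⟨p, q, H, _, b', m', t', hp, hq, hpq, hH, c1, c2⟩ :=
    h1 W hC G hG D hD hDD b hb m t hmt hcfg hne
  obtain ⟨K, _, b₂, m₂, t₂, hK, g1, g2⟩ := h2 W H hH p q b' m' t' c1 c2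
  exact hW p q hp hq hpq (h3 W K hK p q hp hq hpq b₂ m₂ t₂ g1 g2)

theorem forb_of_noconf (h : X7Stmt) (W : Set (FreeGroup ℕ))
    (hW : ∀ (G : Type) [Group G], InVar W G → ∀ b m t : G,
      (∀ i : ℤ, i ≠ 0 → ⁅b, t ^ i * m * t ^ (-i)⁆ = 1) → ⁅b, m⁆ = 1) : Forb W := by
  refine ⟨fun p hp hG => ?_, fun p q hp hq _ hG => ?_⟩
  · obtain ⟨b, m, t, h1, h2⟩ := h.1 p hp
    exact h2 (hW _ hG b m t h1)
  · obtain ⟨b, m, t, h1, h2⟩ := h.2 p q hp hq
    exact h2 (hW _ hG b m t h1)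

end Pool.Agent.TH37.HG
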