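import Pool.Agent.TH37.HG.Asm2
import Pool.Agent.TH37.HG.Asm3
import Pool.Agent.TH959.HG_UIC
import Pool.Agent.TH959.HG_B2
import Pool.Agent.TH959.HG_X5
import Pool.Agent.TH986.HG_P1
import Pool.Agent.TH986.HG_STEP
import Pool.Agent.TH55.HG_B1
import Pool.Agent.TH989.HG_X1A
import Pool.Agent.TH494.HG_X1B
import Pool.Agent.TH558.HG.X2
import Pool.Agent.TH615.HG_X3
import Pool.Agent.TH615.HG_X4
import Pool.Agent.TH558.HG.X6b
import Pool.Agent.TH558.HG.X7

set_option autoImplicit false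

/-!
# Final assembly of the project HG (MP_364ede_al)
-/

namespace Pool.Agent.TH37.HG

open Pool.Agent.H53R2
open scoped commutatorElement

theorem stepStmt : StepStmt := TH986.HGStep.step' (TH55.HGB1.b1 TH986.HGP1.p1)

theorem noC (W : Set (FreeGroup ℕ)) (hW : Forb W) : NoC W :=
  noC_of_forb (TH989.HG.x1a mfinStmt) TH494.HG.x1b TH558.HG.x2 W hW.1

theorem noM (W : Set (FreeGroup ℕ)) (hW : Forb W) : NoM W :=
  noM_of_forb (TH615.HGX4.x4 TH615.HGX3.x3') TH959.HGX5.x5 TH558.HG.x6 W (noC W hW) hW.2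

/-- the main theorem -/
theorem main_tfae2 (W : Set (FreeGroup ℕ)) (d : ℕ)
    (hd : ∀ (G : Type) [Group G], InVar W G → derivedSeries G d = ⊥) : List.TFAE [
    ∀ (G : Type) [Group G], Group.FG G → InVar W G → ResFin G,
    ∃ u : UI, ∀ (G : Type) [Group G], InVar W G → u.Grp G,
    ∀ (G : Type) [Group G], InVar W G → ∀ b m t : G,
      (∀ i : ℤ, i ≠ 0 → ⁅b, t ^ i * m * t ^ (-i)⁆ = 1) → ⁅b, m⁆ = 1,
    Forb W,
    ∀ (G : Type) [Group G], Group.FG G → InVar W G → MaxN G,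
    ∀ (G : Type) [Group G], Group.FG G → InVar W G →
      ∀ φ : G →* G, Function.Surjective φ → Function.Injective φ,
    SmallVar W] := by
  have h := main_tfae W d hd
  tfae_have 1 ↔ 2 := h.out 0 1
  tfae_have 2 ↔ 3 := h.out 1 2
  tfae_have 2 ↔ 5 := h.out 1 3
  tfae_have 2 ↔ 6 := h.out 1 4
  tfae_have 2 ↔ 7 := h.out 1 5
  tfae_have 3 → 4 := fun h => forb_of_noconf TH558.HG.x7 W h
  tfae_have 4 → 5 := by
    intro h G _ hfg hG
    exact (maxN_of_no TH959.HGUi.uic TH959.HGUi.uim stepStmt TH959.HGB2.b2 W (noC W h) (noM W h) d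
      G hG (hd G hG)).2
  tfae_finish

end Pool.Agent.TH37.HG
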