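import Pool.Agent.H53R2.SecMod
import Pool.Agent.Helper294.HallC.Defs

set_option autoImplicit false

/-!
# Definitions for the project HG (MP_364ede_al)

Soluble varieties all of whose finitely generated groups are residually finite.
-/

namespace Pool.Agent.TH37.HG

open Pool.Agent.Helper294.HallC (PC FGM Stb Noe)
open Pool.Agent.H53R2 (InVar Lw MaxN VN VNil UI SecMod)

/-- residually finite groups -/
def ResFin (G : Type) [Group G] : Prop :=
  ∀ g : G, g ≠ 1 → ∃ N : Subgroup G, N.Normal ∧ N.FiniteIndex ∧ g ∉ N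

/-- up to `f`-torsion the section `B / C` is a free `J`-module: a family `b` in `B` is linearly
independent modulo `C` and every element of `B` is carried by a power of `f` into
`C + span b`. -/
def GFs {J M : Type} [CommRing J] [AddCommGroup M] [Module J M] (f : J) (C B : Submodule J M) :
    Prop :=
  ∃ (ι : Type) (b : ι → M), (∀ i, b i ∈ B) ∧
    (∀ l : ι →₀ J, Finsupp.linearCombination J b l ∈ C → l = 0) ∧
    ∀ x ∈ B, ∃ n : ℕ, f ^ n • x ∈ C ⊔ Submodule.span J (Set.range b)

/-- `B` is stable under the elements of `H` -/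
def StJ {J M G : Type} [CommRing J] [AddCommGroup M] [Module J M] [Group G] [DistribMulAction G M]
    (H : Subgroup G) (B : Submodule J M) : Prop :=
  ∀ g ∈ H, ∀ x ∈ B, g • x ∈ B

/-- the `J`-span of the `H`-orbits of the elements of `S` -/
def spJ (J : Type) {M G : Type} [CommRing J] [AddCommGroup M] [Module J M] [Group G]
    [DistribMulAction G M] (H : Subgroup G) (S : Set M) : Submodule J M :=
  Submodule.span J {a : M | ∃ g ∈ H, ∃ s ∈ S, a = g • s}

/-- `r` lies in every nonzero submodule of the `Q`-module `A` -/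
def MonoM (Q : Type) {A : Type} [Group Q] [AddCommGroup A] [DistribMulAction Q A] (r : A) : Prop :=
  r ≠ 0 ∧ ∀ B : AddSubgroup A, Stb Q B → B ≠ ⊥ → r ∈ B

/-- `r` lies in every nontrivial normal subgroup of `G` -/
def MonoG {G : Type} [Group G] (r : G) : Prop :=
  r ≠ 1 ∧ ∀ N : Subgroup G, N.Normal → N ≠ ⊥ → r ∈ N

/-- every nonzero submodule is everything -/
def SimM (Q A : Type) [Group Q] [AddCommGroup A] [DistribMulAction Q A] : Prop :=
  (∃ a : A, a ≠ 0) ∧ ∀ B : AddSubgroup A, Stb Q B → B ≠ ⊥ → B = ⊤

end Pool.Agent.TH37.HG
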