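import Pool.Agent.TH37.HG.Defs
import Pool.Agent.H53R2.SFinal
import Pool.Agent.Helper294.HallC.NoeOfFg

set_option autoImplicit false

/-!
# Statements of the lemmas of the project HG (MP_364ede_al)

Every lemma is a `Prop`; the jobs prove them, in part assuming other ones.
-/

namespace Pool.Agent.TH37.HG

open Pool.Agent.Helper294.HallC (PC FGM Stb Noe)
open Pool.Agent.H53R2 (InVar Lw MaxN VN VNil UI SecMod)
open scoped commutatorElement

/-! ### Generic freeness -/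

/-- finitely generated `J[H]`-modules are Noetherian, `H` polycyclic, `J` commutative Noetherian -/
def NoeStmt : Prop :=
  ∀ (J M G : Type) [CommRing J] [AddCommGroup M] [Module J M] [Group G] [DistribMulAction G M]
    [SMulCommClass G J M] [IsNoetherianRing J] (_ : PC G) (H : Subgroup G) (S : Finset M)
    (f : ℕ → Submodule J M) (_ : Monotone f) (_ : ∀ n, f n ≤ spJ J H (S : Set M))
    (_ : ∀ n, StJ H (f n)), ∃ n, ∀ m, n ≤ m → f m = f n

/-- unions of chains -/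
def UnionStmt : Prop :=
  ∀ (J M : Type) [CommRing J] [AddCommGroup M] [Module J M] (f : J) (N : ℕ → Submodule J M)
    (_ : Monotone N) (_ : ∀ k, GFs f (N k) (N (k + 1))) (B : Submodule J M)
    (_ : ∀ x, x ∈ B ↔ ∃ k, x ∈ N k), GFs f (N 0) B

def TransStmt : Prop :=
  ∀ (J M : Type) [CommRing J] [AddCommGroup M] [Module J M] (f : J) (C B D : Submodule J M)
    (_ : C ≤ B) (_ : B ≤ D) (_ : GFs f C B) (_ : GFs f B D), GFs f C D

def MulStmt : Prop :=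
  ∀ (J M : Type) [CommRing J] [AddCommGroup M] [Module J M] (f g : J) (C B : Submodule J M)
    (_ : GFs f C B), GFs (f * g) C B

/-- second isomorphism theorem -/
def IsoStmt : Prop :=
  ∀ (J M : Type) [CommRing J] [AddCommGroup M] [Module J M] (f : J) (A D : Submodule J M)
    (_ : GFs f (A ⊓ D) A), GFs f D (D ⊔ A)

def MapStmt : Prop :=
  ∀ (J M : Type) [CommRing J] [AddCommGroup M] [Module J M] (φ : M ≃ₗ[J] M) (f : J)
    (C B : Submodule J M) (_ : GFs f C B), GFs f (C.map φ.toLinearMap) (B.map φ.toLinearMap)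

/-- finitely generated modules over a domain -/
def FgStmt : Prop :=
  ∀ (J M : Type) [CommRing J] [IsDomain J] [AddCommGroup M] [Module J M] (C : Submodule J M)
    (S : Finset M), ∃ f : J, f ≠ 0 ∧ GFs f C (C ⊔ Submodule.span J (S : Set M))

/-- generic freeness (P. Hall) -/
def GenStmt : Prop :=
  ∀ (J M G : Type) [CommRing J] [IsDomain J] [IsNoetherianRing J] [AddCommGroup M] [Module J M]
    [Group G] [DistribMulAction G M] [SMulCommClass G J M] (_ : PC G) (C : Submodule J M)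
    (_ : StJ (⊤ : Subgroup G) C) (S : Finset M),
    ∃ f : J, f ≠ 0 ∧ GFs f C (C ⊔ spJ J (⊤ : Subgroup G) (S : Set M))

def DivStmt : Prop :=
  ∀ (J M : Type) [CommRing J] [AddCommGroup M] [Module J M] (f q : J) (_ : ¬ IsUnit q)
    (_ : IsCoprime q f) (_ : f ≠ 0) (_ : ∀ (c : J) (x : M), c • x = 0 → c = 0 ∨ x = 0)
    (_ : ∀ x : M, ∃ y : M, q • y = x) (_ : GFs f (⊥ : Submodule J M) ⊤) (x : M), x = 0

/-! ### Simple and monolithic modules -/

def SimpStmt : Prop :=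
  ∀ (Q A : Type) [Group Q] [AddCommGroup A] [DistribMulAction Q A] (_ : PC Q) (_ : FGM Q A)
    (_ : SimM Q A), ∃ p : ℕ, p.Prime ∧ ∀ x : A, p • x = 0

def SimzStmt : Prop :=
  ∀ (Q A : Type) [Group Q] [AddCommGroup A] [DistribMulAction Q A] (_ : PC Q) (_ : FGM Q A)
    (_ : SimM Q A) (p : ℕ) (_ : p.Prime) (_ : ∀ x : A, p • x = 0) (z : Q)
    (_ : ∀ g, z * g = g * z), ∃ m : ℕ, 0 < m ∧ ∀ x : A, z ^ m • x = x

def FitStmt : Prop :=
  ∀ (Q A : Type) [Group Q] [AddCommGroup A] [DistribMulAction Q A] (_ : Noe Q A) (r : A)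
    (_ : MonoM Q r) (φ : A →+ A) (_ : ∀ (g : Q) (x : A), φ (g • x) = g • φ x) (_ : φ r = 0),
    ∃ n : ℕ, ∀ x, φ^[n] x = 0

/-- monolithic modules over polycyclic groups -/
def McStmt : Prop :=
  ∀ (Q A : Type) [Group Q] [AddCommGroup A] [DistribMulAction Q A] (_ : PC Q) (_ : FGM Q A)
    (r : A) (_ : MonoM Q r), (∃ e : ℕ, 0 < e ∧ ∀ x : A, e • x = 0) ∧
      ∀ z : Q, (∀ g, z * g = g * z) → ∃ m : ℕ, 0 < m ∧ ∀ x : A, z ^ m • x = x

/-- P. Hall: monolithic modules over finitely generated nilpotent groups are finite -/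
def MfinStmt : Prop :=
  ∀ (Q A : Type) [Group Q] [Group.FG Q] [Group.IsNilpotent Q] [AddCommGroup A]
    [DistribMulAction Q A] (_ : FGM Q A) (r : A) (_ : MonoM Q r), Finite A

def MfinVStmt : Prop :=
  ∀ (Q A : Type) [Group Q] [Group.FG Q] [AddCommGroup A] [DistribMulAction Q A] (_ : VNil Q)
    (_ : FGM Q A) (r : A) (_ : MonoM Q r), Finite A

/-! ### Groups -/

def NilfStmt : Prop :=
  ∀ (G : Type) [Group G] (N : Subgroup G) [N.Normal] [Finite N] (_ : VNil (G ⧸ N)), VNil G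

def ZcStmt : Prop :=
  ∀ (G : Type) [Group G] [Group.FG G] (_ : MaxN G) (r : G) (_ : MonoG r) (C X : Subgroup G)
    [C.Normal] [X.Normal] (_ : ⁅X, C⁆ = ⊥) (_ : ⁅X, X⁆ = ⊥) (_ : VNil (G ⧸ C)), Finite X

def PerStmt : Prop :=
  ∀ (u : UI) (e : ℕ) (_ : 0 < e), ∃ P : ℕ, 0 < P ∧ ∀ (E : Type) [AddCommGroup E],
    (∀ x : E, e • x = 0) → ∀ φ : ℤ → E,
    (∀ l n : ℤ, φ l = ∑ k, u.e k • φ (l + n * u.i k)) → ∀ l, φ (l + P) = φ l

def PergStmt : Prop :=
  ∀ (u : UI) (G : Type) [Group G] (_ : u.Grp G) (B C D : Subgroup G) [B.Normal] [C.Normal]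
    [D.Normal] [Finite B] (_ : D ≤ C) (_ : ⁅B, C⁆ = ⊥) (_ : ⁅D, C⁆ ≤ B),
    ∃ P : ℕ, 0 < P ∧ ∀ d ∈ D, ∀ c ∈ C, ∀ t ∈ Subgroup.centralizer (B : Set G),
      ⁅d, t ^ P * c * t⁻¹ ^ P⁆ = ⁅d, c⁆

def DfinStmt : Prop :=
  ∀ (G : Type) [Group G] [Group.FG G] [Group.IsSolvable G] (_ : MaxN G) (B C D Z : Subgroup G)
    [B.Normal] [C.Normal] [D.Normal] [Z.Normal] [Finite B] [Finite Z] (_ : D ≤ C)
    (_ : ⁅B, C⁆ = ⊥) (_ : ⁅D, C⁆ ≤ B) (_ : ∀ x, x ∈ Z ↔ x ∈ D ∧ ∀ c ∈ C, ⁅x, c⁆ = 1) (P : ℕ)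
    (_ : 0 < P) (_ : ∀ d ∈ D, ∀ c ∈ C, ∀ t ∈ Subgroup.centralizer (B : Set G),
      ⁅d, t ^ P * c * t⁻¹ ^ P⁆ = ⁅d, c⁆), Finite D

def NfinStmt : Prop :=
  ∀ (u : UI) (G : Type) [Group G] [Group.FG G] [Group.IsSolvable G] (_ : u.Grp G) (_ : MaxN G)
    (r : G) (_ : MonoG r) (N : Subgroup G) [N.Normal] (c : ℕ) (_ : Lw N c N = ⊥)
    (_ : VNil (G ⧸ N)), Finite N

/-- Mal'cev: finitely generated residually finite groups are Hopfian -/
def MalStmt : Prop :=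
  ∀ (G : Type) [Group G] [Group.FG G] (_ : ResFin G) (φ : G →* G) (_ : Function.Surjective φ),
    Function.Injective φ

end Pool.Agent.TH37.HG
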