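import Pool.Agent.TH37.HG.Stmts

set_option autoImplicit false

/-!
# Second part of the project HG (MP_364ede_al): forbidden groups

A soluble variety has only residually finite finitely generated groups iff it contains none of the
groups `HGrp p` (`p` prime) and `WGrp p q` (`p ≠ q` primes).
-/

namespace Pool.Agent.TH37.HG

open Pool.Agent.Helper294.HallC (PC FGM Stb Noe del)
open Pool.Agent.H53R2 (InVar Lw MaxN VN VNil UI SecMod ActNil)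
open scoped commutatorElement

/-! ### The forbidden groups -/

/-- `(x, c) ↦ (x + δ₀, c)` -/
def hb (p : ℕ) : Equiv.Perm ((ℤ → ZMod p) × ZMod p) where
  toFun x := (x.1 + Pi.single 0 1, x.2)
  invFun x := (x.1 - Pi.single 0 1, x.2)
  left_inv x := by simp
  right_inv x := by simp

/-- `(x, c) ↦ (x, c + x 0)` -/
def hm (p : ℕ) : Equiv.Perm ((ℤ → ZMod p) × ZMod p) where
  toFun x := (x.1, x.2 + x.1 0)
  invFun x := (x.1, x.2 - x.1 0)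
  left_inv x := by simp
  right_inv x := by simp

/-- the shift `(x, c) ↦ (x(· - 1), c)` -/
def ht (p : ℕ) : Equiv.Perm ((ℤ → ZMod p) × ZMod p) where
  toFun x := (fun i => x.1 (i - 1), x.2)
  invFun x := (fun i => x.1 (i + 1), x.2)
  left_inv x := by simp
  right_inv x := by simp

/-- an infinite amalgamated power of the Heisenberg group modulo `p`, extended by the shift -/
abbrev HGrp (p : ℕ) : Type :=
  ↥(Subgroup.closure ({hb p, hm p, ht p} : Set (Equiv.Perm ((ℤ → ZMod p) × ZMod p))))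

/-- `(0, 0, z) ↦ (0, 0, z + 1)`, the other points are fixed -/
def wb (p q : ℕ) : Equiv.Perm (ℤ × ZMod q × ZMod p) where
  toFun x := if x.1 = 0 ∧ x.2.1 = 0 then (x.1, x.2.1, x.2.2 + 1) else x
  invFun x := if x.1 = 0 ∧ x.2.1 = 0 then (x.1, x.2.1, x.2.2 - 1) else x
  left_inv x := by
    by_cases h : x.1 = 0 ∧ x.2.1 = 0
    · simp [h]
      ext <;> simp [h]
    · simp [h]
  right_inv x := by
    by_cases h : x.1 = 0 ∧ x.2.1 = 0
    · simp [h]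
      ext <;> simp [h]
    · simp [h]

/-- `(0, s, z) ↦ (0, s + 1, z)`, the other points are fixed -/
def wm (p q : ℕ) : Equiv.Perm (ℤ × ZMod q × ZMod p) where
  toFun x := if x.1 = 0 then (x.1, x.2.1 + 1, x.2.2) else x
  invFun x := if x.1 = 0 then (x.1, x.2.1 - 1, x.2.2) else x
  left_inv x := by
    by_cases h : x.1 = 0
    · simp [h]
      ext <;> simp [h]
    · simp [h]
  right_inv x := by
    by_cases h : x.1 = 0
    · simp [h]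
      ext <;> simp [h]
    · simp [h]

/-- the shift `(i, s, z) ↦ (i + 1, s, z)` -/
def wt (p q : ℕ) : Equiv.Perm (ℤ × ZMod q × ZMod p) where
  toFun x := (x.1 + 1, x.2)
  invFun x := (x.1 - 1, x.2)
  left_inv x := by simp
  right_inv x := by simp

/-- the iterated wreath product `(C_p wr C_q) wr C_∞` -/
abbrev WGrp (p q : ℕ) : Type :=
  ↥(Subgroup.closure ({wb p q, wm p q, wt p q} : Set (Equiv.Perm (ℤ × ZMod q × ZMod p))))

/-! ### Configurations -/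

/-- the configuration: `b` commutes with the conjugates `t^i m t^-i`, `i ≠ 0` -/
def Cfg {G : Type} [Group G] (b m t : G) : Prop :=
  ∀ i : ℤ, i ≠ 0 → ⁅b, t ^ i * m * t ^ (-i)⁆ = 1

/-- `⁅b, m⁆` commutes with all conjugates of `b` and `m` under the powers of `t` -/
def Cen {G : Type} [Group G] (b m t : G) : Prop :=
  ∀ i : ℤ, ⁅⁅b, m⁆, t ^ i * b * t ^ (-i)⁆ = 1 ∧ ⁅⁅b, m⁆, t ^ i * m * t ^ (-i)⁆ = 1

/-- no configurations of central type -/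
def NoC (W : Set (FreeGroup ℕ)) : Prop :=
  ∀ (G : Type) [Group G], InVar W G → ∀ b m t : G, Cfg b m t → Cen b m t → ⁅b, m⁆ = 1

/-- no configurations of module type -/
def NoM (W : Set (FreeGroup ℕ)) : Prop :=
  ∀ (G : Type) [Group G], InVar W G → ∀ D : Subgroup G, D.Normal → ⁅D, D⁆ = ⊥ → ∀ b ∈ D,
    ∀ m t : G, (∀ i : ℤ, ∀ d ∈ D, ⁅⁅m, t ^ i * m * t ^ (-i)⁆, d⁆ = 1) → Cfg b m t → ⁅b, m⁆ = 1

/-- the universal identity at a triple -/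
def At (u : UI) {G : Type} [Group G] (b m t : G) : Prop :=
  ⁅b, m⁆ = (List.ofFn fun k : Fin u.n =>
    FreeGroup.lift ![b, m, t] (u.w k) * ⁅b, t ^ (u.i k) * m * t ^ (-(u.i k))⁆ ^ (u.e k) *
      (FreeGroup.lift ![b, m, t] (u.w k))⁻¹).prod

/-- the universal identity for triples of central type -/
def UIc (W : Set (FreeGroup ℕ)) (u : UI) : Prop :=
  ∀ (G : Type) [Group G], InVar W G → ∀ b m t : G,
    (∀ i j k : ℤ, ⁅⁅t ^ i * b * t ^ (-i), t ^ j * m * t ^ (-j)⁆, t ^ k * b * t ^ (-k)⁆ = 1 ∧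
      ⁅⁅t ^ i * b * t ^ (-i), t ^ j * m * t ^ (-j)⁆, t ^ k * m * t ^ (-k)⁆ = 1) → At u b m t

/-- the universal identity for triples of module type -/
def UIm (W : Set (FreeGroup ℕ)) (u : UI) : Prop :=
  ∀ (G : Type) [Group G], InVar W G → ∀ D : Subgroup G, D.Normal → ⁅D, D⁆ = ⊥ → ∀ b ∈ D,
    ∀ m t : G, (∀ i : ℤ, ∀ d ∈ D, ⁅⁅m, t ^ i * m * t ^ (-i)⁆, d⁆ = 1) → At u b m t

/-- the additive form of the universal identity, for `m` commuting with its conjugates under the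
powers of `t` -/
def MT (u : UI) (Q E : Type) [Group Q] [AddCommGroup E] [DistribMulAction Q E] : Prop :=
  ∀ m t : Q, (∀ i : ℤ, ⁅m, t ^ i * m * t ^ (-i)⁆ = 1) → ∀ b : E, b - m • b = ∑ k : Fin u.n,
    u.e k • (FreeGroup.lift ![1, m, t] (u.w k) •
      (b - (t ^ (u.i k) * m * t ^ (-(u.i k))) • b))

/-! ### Statements: from the absence of configurations to max-n -/

def UicStmt : Prop := ∀ W : Set (FreeGroup ℕ), NoC W → ∃ u : UI, UIc W u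

def UimStmt : Prop := ∀ W : Set (FreeGroup ℕ), NoM W → ∃ u : UI, UIm W u

/-- `H53R2.P1` with `MT` in place of `UI.Mod` -/
def P1Stmt : Prop :=
  ∀ u : UI, ∃ n : ℕ, 0 < n ∧
    ∀ (Q E M : Type) [Group Q] [AddCommGroup E] [DistribMulAction Q E] [AddCommGroup M]
      [DistribMulAction Q M] (_ : MT u Q E)
      (_ : ∀ N : Subgroup Q, N.Normal → ActNil (N : Set Q) E → N = ⊥)
      (ι : Multiplicative M →* Q) (_ : Function.Injective ι)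
      (_ : ∀ (q : Q) (m : M), ι (Multiplicative.ofAdd (q • m)) =
        q * ι (Multiplicative.ofAdd m) * q⁻¹)
      (Q₁ : Subgroup Q) (_ : Q₁.Normal) (_ : Q₁.FiniteIndex) (z : Q)
      (_ : ∀ q ∈ Q₁, ∀ b : M, z • q • b = q • z • b),
      ActNil ({z ^ n} : Set Q) M

/-- `H53R2.lemmaB1` with `UIc`, `MT` in place of `UI.Grp`, `UI.Mod` -/
def B1Stmt : Prop :=
  ∀ (W : Set (FreeGroup ℕ)) (u v : UI) (_ : UIc W u) (Q E : Type) [Group Q] [Group.FG Q]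
    [AddCommGroup E] [DistribMulAction Q E] (_ : InVar W Q) (_ : MaxN Q) (_ : VN Q)
    (_ : MT v Q E) (_ : ∀ N : Subgroup Q, N.Normal → ActNil (N : Set Q) E → N = ⊥), VNil Q

/-- `H53R2.step` with `UIc`, `UIm` in place of `UI.Grp` -/
def StepStmt : Prop :=
  ∀ (W : Set (FreeGroup ℕ)) (u v : UI) (_ : UIc W u) (_ : UIm W v) (G : Type) [Group G]
    [Group.FG G] (_ : InVar W G) (D : Subgroup G) [D.Normal] (_ : ⁅D, D⁆ = ⊥)
    (_ : MaxN (G ⧸ D)) (_ : VN (G ⧸ D)), VN G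

/-- `H53R2.U_lemmaB2` with `UIc` in place of `UI.Grp` -/
def B2Stmt : Prop :=
  ∀ (W : Set (FreeGroup ℕ)) (u : UI) (_ : UIc W u) (G : Type) [Group G] [Group.FG G]
    (_ : InVar W G) (_ : VN G), MaxN G

/-! ### Statements: extraction of the forbidden groups -/

/-- triples as in `HGrp p` -/
def HTriple (p : ℕ) {G : Type} [Group G] (b m t : G) : Prop :=
  b ^ p = 1 ∧ m ^ p = 1 ∧ (∀ i : ℤ, ⁅b, t ^ i * b * t ^ (-i)⁆ = 1) ∧
    (∀ i : ℤ, ⁅m, t ^ i * m * t ^ (-i)⁆ = 1) ∧ Cfg b m t ∧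
    ⁅⁅b, m⁆, b⁆ = 1 ∧ ⁅⁅b, m⁆, m⁆ = 1 ∧ ⁅⁅b, m⁆, t⁆ = 1

/-- triples as in `WGrp p q` -/
def WTriple (p q : ℕ) {G : Type} [Group G] (b m t : G) : Prop :=
  b ^ p = 1 ∧ m ^ q = 1 ∧ (∀ i : ℤ, ⁅m, t ^ i * m * t ^ (-i)⁆ = 1) ∧ Cfg b m t ∧
    ∀ i s : ℤ, ⁅b, t ^ i * (m ^ s * b * m ^ (-s)) * t ^ (-i)⁆ = 1

/-- triples of module type of order `p`, `q` -/
def KTriple (p q : ℕ) {G : Type} [Group G] (b m t : G) : Prop :=
  ∃ D : Subgroup G, D.Normal ∧ ⁅D, D⁆ = ⊥ ∧ b ∈ D ∧ b ^ p = 1 ∧ Cfg b m t ∧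
    (∀ i : ℤ, ∀ d ∈ D, ⁅⁅m, t ^ i * m * t ^ (-i)⁆, d⁆ = 1) ∧ ⁅b, m ^ q⁆ = 1

/-- first reduction of configurations of central type -/
def X1aStmt : Prop :=
  ∀ (W : Set (FreeGroup ℕ)) (G : Type) [Group G] (_ : InVar W G) (b m t : G) (_ : Cfg b m t)
    (_ : Cen b m t) (_ : ⁅b, m⁆ ≠ 1), ∃ (p : ℕ) (H : Type) (_ : Group H) (b' m' t' : H),
      p.Prime ∧ InVar W H ∧ Cfg b' m' t' ∧ Cen b' m' t' ∧ ⁅⁅b', m'⁆, t'⁆ = 1 ∧
      ⁅b', m'⁆ ^ p = 1 ∧ ⁅b', m'⁆ ≠ 1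

/-- second reduction -/
def X1bStmt : Prop :=
  ∀ (W : Set (FreeGroup ℕ)) (G : Type) [Group G] (_ : InVar W G) (p : ℕ) (b m t : G)
    (_ : Cfg b m t) (_ : Cen b m t) (_ : ⁅⁅b, m⁆, t⁆ = 1) (_ : ⁅b, m⁆ ^ p = 1)
    (_ : ⁅b, m⁆ ≠ 1), ∃ (H : Type) (_ : Group H) (b' m' t' : H),
      InVar W H ∧ HTriple p b' m' t' ∧ ⁅b', m'⁆ ≠ 1

/-- triples generate the forbidden group -/
def X2Stmt : Prop :=
  ∀ (W : Set (FreeGroup ℕ)) (G : Type) [Group G] (_ : InVar W G) (p : ℕ) (_ : p.Prime)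
    (b m t : G) (_ : HTriple p b m t) (_ : ⁅b, m⁆ ≠ 1), InVar W (HGrp p)

/-- a non-unipotent element acting on an abelian group -/
def X3Stmt : Prop :=
  ∀ (E Q : Type) [AddCommGroup E] [Group Q] [DistribMulAction Q E] (z : Q) (b : E)
    (_ : ∀ n : ℕ, (del z)^[n] b ≠ 0),
    ∃ (b' : E) (k : ℕ) (B P : AddSubgroup E) (p q r : ℕ), b' = (del z)^[k] b ∧
      B = AddSubgroup.closure {x : E | ∃ i : ℤ, x = z ^ i • b'} ∧ P ≤ B ∧
      (∀ x ∈ P, z • x ∈ P ∧ z⁻¹ • x ∈ P) ∧ (∀ x ∈ B, z • x = x → x = 0) ∧ p.Prime ∧ q.Prime ∧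
      p ≠ q ∧ 0 < r ∧ p • b' ∈ P ∧ z ^ (r * q) • b' - b' ∈ P ∧ z ^ r • b' - b' ∉ P

/-- reduction of configurations of module type -/
def X4Stmt : Prop :=
  ∀ (W : Set (FreeGroup ℕ)) (_ : NoC W) (G : Type) [Group G] (_ : InVar W G) (D : Subgroup G)
    (_ : D.Normal) (_ : ⁅D, D⁆ = ⊥) (b : G) (_ : b ∈ D) (m t : G)
    (_ : ∀ i : ℤ, ∀ d ∈ D, ⁅⁅m, t ^ i * m * t ^ (-i)⁆, d⁆ = 1) (_ : Cfg b m t) (_ : ⁅b, m⁆ ≠ 1),
    ∃ (p q : ℕ) (H : Type) (_ : Group H) (b' m' t' : H), p.Prime ∧ q.Prime ∧ p ≠ q ∧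
      InVar W H ∧ KTriple p q b' m' t' ∧ ⁅b', m'⁆ ≠ 1

/-- splitting -/
def X5Stmt : Prop :=
  ∀ (W : Set (FreeGroup ℕ)) (G : Type) [Group G] (_ : InVar W G) (p q : ℕ) (b m t : G)
    (_ : KTriple p q b m t) (_ : ⁅b, m⁆ ≠ 1), ∃ (H : Type) (_ : Group H) (b' m' t' : H),
      InVar W H ∧ WTriple p q b' m' t' ∧ ⁅b', m'⁆ ≠ 1

def X6Stmt : Prop :=
  ∀ (W : Set (FreeGroup ℕ)) (G : Type) [Group G] (_ : InVar W G) (p q : ℕ) (_ : p.Prime)
    (_ : q.Prime) (_ : p ≠ q) (b m t : G) (_ : WTriple p q b m t) (_ : ⁅b, m⁆ ≠ 1),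
    InVar W (WGrp p q)

/-- the forbidden groups contain configurations -/
def X7Stmt : Prop :=
  (∀ p : ℕ, p.Prime → ∃ b m t : HGrp p, Cfg b m t ∧ ⁅b, m⁆ ≠ 1) ∧
  ∀ p q : ℕ, p.Prime → q.Prime → ∃ b m t : WGrp p q, Cfg b m t ∧ ⁅b, m⁆ ≠ 1

end Pool.Agent.TH37.HG
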